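import Pool.Agent.Helper89.OS.St2

/-!
# Project OS (MP_2b6189_al), module TSU: torus sums
-/

set_option autoImplicit false

namespace Pool.Agent.Helper45.OS

open Matrix ComplexConjugate Pool.Agent.Helper94.YF Pool.Agent.Helper94.YG
  Pool.Agent.Helper89.OS

/-- module TSU -/
theorem hTSU : StTSU := by
  classical
  intro hSTL hHEC hMZZ hRAT I _ _ p _ X Q hB k hyk htk hko
  obtain ⟨hra, hrb⟩ := hRAT
  have hp := X.prime
  have hp1 : 1 ≤ p := hp.one_lt.le
  have hcardU : (Fintype.card (ZMod (p ^ 1))ˣ : ℂ) = (p : ℂ) - 1 := by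
    rw [ZMod.card_units_eq_totient, pow_one, Nat.totient_prime hp, Nat.cast_sub hp1]
    norm_num
  have hinj : ∀ c, Function.Injective (X.pi c) := by
    intro c i j h
    have h1 := congrArg (X.pi c⁻¹) h
    rwa [← X.pi_mul, ← X.pi_mul, inv_mul_cancel, X.pi_one, X.pi_one] at h1
  obtain ⟨f, hf⟩ : ∃ f : I → ℤ, ∀ i, f i =
      ((Finset.univ.filter fun c => X.pi c k = i).card : ℤ) := ⟨_, fun i => rfl⟩
  have hfinv : ∀ c i, f (X.pi c i) = f i := by
    intro c' i
    rw [hf, hf]
    congr 1
    symm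
    refine Finset.card_bij (fun c _ => c' * c) ?_ ?_ ?_
    · intro c hc
      simp only [Finset.mem_filter, Finset.mem_univ, true_and] at hc ⊢
      rw [X.pi_mul, hc]
    · intro a _ b _ h
      exact mul_left_cancel h
    · intro b hb
      refine ⟨c'⁻¹ * b, ?_, mul_inv_cancel_left c' b⟩
      simp only [Finset.mem_filter, Finset.mem_univ, true_and] at hb ⊢
      rw [X.pi_mul, hb, ← X.pi_mul, inv_mul_cancel, X.pi_one]
  have hfex : ∀ i, f i ≠ 0 → ∃ c, X.pi c k = i := by
    intro i hi
    by_contra hno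
    push Not at hno
    apply hi
    rw [hf, Nat.cast_eq_zero, Finset.card_eq_zero, Finset.filter_eq_empty_iff]
    intro c _
    exact hno c
  have hfs : ∀ i, f i ≠ 0 → X.t i = 1 := by
    intro i hi
    obtain ⟨c, hc⟩ := hfex i hi
    rw [← hc, X.pi_t, htk, one_pow]
  have hfy : ∀ i, f i ≠ 0 → X.y i ≠ 0 := by
    intro i hi
    obtain ⟨c, hc⟩ := hfex i hi
    rw [← hc, X.pi_y]
    exact hyk
  have hfo : f X.o = 0 := by
    by_contra h
    obtain ⟨c, hc⟩ := hfex _ h
    exact hko (hinj c (hc.trans (X.pi_o c).symm))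
  have hsumf : ∀ g : I → ℂ, ∑ i, g i * (f i : ℂ) = ∑ c, g (X.pi c k) := by
    intro g
    rw [← Finset.sum_fiberwise Finset.univ (fun c => X.pi c k) (fun c => g (X.pi c k))]
    refine Finset.sum_congr rfl fun i _ => ?_
    have h1 : ∀ c ∈ Finset.univ.filter (fun c => X.pi c k = i), g (X.pi c k) = g i := by
      intro c hc
      rw [(Finset.mem_filter.1 hc).2]
    rw [Finset.sum_congr rfl h1, Finset.sum_const, nsmul_eq_mul, hf]
    push_cast
    ring
  have hFex : ∀ j, ∃ m : ℤ, (m : ℂ) = ∑ c, X.s j (X.pi c k) := by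
    intro j
    apply hra
    · exact IsIntegral.sum _ fun c _ => X.s_int _ _
    · intro σ
      obtain ⟨c', hc'⟩ := X.gal σ
      rw [map_sum]
      refine Fintype.sum_equiv (Equiv.mulLeft c') _ _ fun c => ?_
      rw [hc', Equiv.coe_mulLeft, X.pi_mul]
  choose F hF using hFex
  have hF' : ∀ j, (F j : ℂ) = ∑ i, X.s j i * (f i : ℂ) := by
    intro j
    rw [hF, hsumf]
  have hFo : (F X.o : ℂ) = ((p : ℂ) - 1) * X.y k := by
    rw [hF]
    have h1 : ∀ c ∈ (Finset.univ : Finset (ZMod (p ^ 1))ˣ),
        X.s X.o (X.pi c k) = (X.y k : ℂ) := by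
      intro c _
      rw [X.s_symm, X.s_o, X.pi_y]
    rw [Finset.sum_congr rfl h1, Finset.sum_const, nsmul_eq_mul, Finset.card_univ, hcardU]
  obtain ⟨hS1, hS2⟩ := hSTL hHEC I p X Q hB f F hfinv hfs (fun j _ => hF' j)
  obtain ⟨-, -, ⟨j0, hj0, hj0t⟩, -, hg2, -, -⟩ := hMZZ I p X
  have hyo : X.y X.o ≠ 0 := by
    intro h
    apply hB.x_nd
    rw [h]
    exact dvd_zero _
  have hA : ∀ j, X.y j ≠ 0 → X.t j = 1 → j ≠ X.o → ((p : ℂ) - X.y X.o) *
      ((p : ℂ) * (f j : ℂ) - F j) = ((p : ℂ) - 1) * (X.y k * X.y j) := by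
    intro j hj htj hjo
    have h1 := hS1 j hj htj
    rw [if_neg hjo, hfo] at h1
    have h2 := congrArg (fun z : ℤ => (z : ℂ)) h1
    push_cast at h2
    rw [hFo] at h2
    rw [h2]
    ring
  refine ⟨?_, ?_⟩
  · intro j hj htj hjo
    have h1 := hA j hj htj hjo
    rw [hf, hF] at h1
    push_cast at h1
    exact h1
  · -- the vector E
    obtain ⟨E, hE⟩ : ∃ E : I → ℂ, ∀ i, E i = ((p : ℂ) - X.y X.o) * (f i : ℂ) +
        (if i = X.o then ((p : ℂ) - 1) * X.y k else 0) := ⟨_, fun i => rfl⟩
    have hsE : ∀ j, ∑ i, X.s j i * E i = ((p : ℂ) - X.y X.o) * F j +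
        ((p : ℂ) - 1) * X.y k * X.y j := by
      intro j
      have h1 : ∀ i ∈ (Finset.univ : Finset I), X.s j i * E i =
          ((p : ℂ) - X.y X.o) * (X.s j i * (f i : ℂ)) +
          (if i = X.o then X.s j i * (((p : ℂ) - 1) * X.y k) else 0) := by
        intro i _
        rw [hE]
        split_ifs <;> ring
      rw [Finset.sum_congr rfl h1, Finset.sum_add_distrib, ← Finset.mul_sum, ← hF',
        Finset.sum_ite_eq' Finset.univ X.o (fun i => X.s j i * (((p : ℂ) - 1) * X.y k)),
        if_pos (Finset.mem_univ _), X.s_o]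
      ring
    have hEeq : ∀ i, ∑ k, X.s i k * E k = (p : ℂ) * E i := by
      intro j
      rw [hsE]
      by_cases hyj : X.y j = 0
      · have h1 : f j = 0 := by
          by_contra h
          exact hfy j h hyj
        have h2 : j ≠ X.o := by
          intro h
          rw [h] at hyj
          exact hyo hyj
        have h3 : (F j : ℂ) = 0 := by
          rw [hF]
          apply Finset.sum_eq_zero
          intro c _
          rw [X.s_symm]
          apply hB.sup _ _ _ hyj
          rw [X.pi_y]
          exact hyk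
        rw [hE, h3, h1, if_neg h2, hyj]
        simp
      · by_cases htj : X.t j = 1
        · by_cases hjo : j = X.o
          · rw [hjo, hFo, hE, if_pos rfl, hfo]
            push_cast
            ring
          · have h1 := hA j hyj htj hjo
            rw [hE, if_neg hjo]
            linear_combination (-1 : ℂ) * h1
        · have h1 := hS2 j hyj htj
          rw [← hF', hFo, hfo] at h1
          have h2 : f j = 0 := by
            by_contra h
            exact htj (hfs j h)
          have h3 : j ≠ X.o := by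
            intro h
            rw [h] at htj
            exact htj X.t_o
          rw [hE, if_neg h3, h2]
          push_cast at h1 ⊢
          linear_combination h1
    have hEt : ∀ k, E k ≠ 0 → X.t k = 1 := by
      intro i hi
      by_cases hio : i = X.o
      · rw [hio]
        exact X.t_o
      · by_cases hfi : f i = 0
        · exfalso
          apply hi
          rw [hE, hfi, if_neg hio]
          simp
        · exact hfs i hfi
    have hT := X.tor E hEeq hEt j0 hj0t
    -- f is constant on the orbit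
    have hfk : f k ≠ 0 := by
      rw [hf]
      have h1 : (1 : (ZMod (p ^ 1))ˣ) ∈ Finset.univ.filter (fun c => X.pi c k = k) := by
        rw [Finset.mem_filter]
        exact ⟨Finset.mem_univ _, X.pi_one k⟩
      have h2 := Finset.card_pos.2 ⟨_, h1⟩
      omega
    have hforb : ∀ i, f i = if i ∈ Orb X k then f k else 0 := by
      intro i
      split_ifs with h
      · have h' : ∃ c, X.pi c k = i := by
          unfold Orb at h
          simpa using h
        obtain ⟨c, hc⟩ := h'
        rw [← hc, hfinv]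
      · by_contra h1
        obtain ⟨c, hc⟩ := hfex i h1
        apply h
        unfold Orb
        simp only [Finset.mem_filter, Finset.mem_univ, true_and]
        exact ⟨c, hc⟩
    have hsumg : ∀ g : I → ℂ, ∑ i, g i * (f i : ℂ) = (f k : ℂ) * ∑ i ∈ Orb X k, g i := by
      intro g
      rw [Finset.mul_sum, ← Finset.sum_filter_add_sum_filter_not Finset.univ
        (fun i => i ∈ Orb X k) (fun i => g i * (f i : ℂ))]
      have h1 : ∑ i ∈ Finset.univ.filter (fun i => ¬ i ∈ Orb X k), g i * (f i : ℂ) = 0 := by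
        apply Finset.sum_eq_zero
        intro i hi
        rw [hforb, if_neg (Finset.mem_filter.1 hi).2]
        simp
      have h2 : Finset.univ.filter (fun i => i ∈ Orb X k) = Orb X k := by
        ext i
        simp
      rw [h1, add_zero, h2]
      refine Finset.sum_congr rfl fun i hi => ?_
      rw [hforb i, if_pos hi]
      ring
    have hcnt : (p : ℂ) - 1 = (f k : ℂ) * ((Orb X k).card : ℂ) := by
      have h1 := hsumg (fun _ => 1)
      rw [hsumf] at h1
      simp only [Finset.sum_const, nsmul_eq_mul, mul_one, Finset.card_univ] at h1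
      rw [← h1, hcardU]
    have hchi : ∑ i, E i * X.chi j0 i = ((p : ℂ) - X.y X.o) *
        ((f k : ℂ) * ∑ i ∈ Orb X k, X.chi j0 i) + ((p : ℂ) - 1) * X.y k := by
      have h1 : ∀ i ∈ (Finset.univ : Finset I), E i * X.chi j0 i =
          ((p : ℂ) - X.y X.o) * (X.chi j0 i * (f i : ℂ)) +
          (if i = X.o then X.chi j0 i * (((p : ℂ) - 1) * X.y k) else 0) := by
        intro i _
        rw [hE]
        split_ifs <;> ring
      rw [Finset.sum_congr rfl h1, Finset.sum_add_distrib, ← Finset.mul_sum, hsumg,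
        Finset.sum_ite_eq' Finset.univ X.o (fun i => X.chi j0 i * (((p : ℂ) - 1) * X.y k)),
        if_pos (Finset.mem_univ _), X.chi_o, one_mul]
    rw [hchi, hcnt] at hT
    have hfkC : (f k : ℂ) ≠ 0 := by exact_mod_cast hfk
    have hT2 : ((p : ℂ) - X.y X.o) * (∑ i ∈ Orb X k, X.chi j0 i) +
        ((Orb X k).card : ℂ) * X.y k = 0 := by
      have h1 : (f k : ℂ) * (((p : ℂ) - X.y X.o) * (∑ i ∈ Orb X k, X.chi j0 i) +
        ((Orb X k).card : ℂ) * X.y k) = 0 := by
        linear_combination hT
      rcases mul_eq_zero.1 h1 with h | h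
      · exact absurd h hfkC
      · exact h
    have hgZ : (p : ℤ) - X.y X.o ≠ 0 := by omega
    have hgC : (p : ℂ) - X.y X.o ≠ 0 := by exact_mod_cast hgZ
    have hgQ : (p : ℚ) - X.y X.o ≠ 0 := by exact_mod_cast hgZ
    have hint : IsIntegral ℤ (∑ i ∈ Orb X k, X.chi j0 i) :=
      IsIntegral.sum _ fun i _ => X.chi_int _ _
    have hq : (((-(((Orb X k).card : ℚ) * X.y k) / ((p : ℚ) - X.y X.o) : ℚ)) : ℂ) =
        ∑ i ∈ Orb X k, X.chi j0 i := by
      push_cast
      rw [div_eq_iff hgC]
      linear_combination (-1 : ℂ) * hT2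
    obtain ⟨m, hm⟩ := hrb _ (hq ▸ hint)
    rw [eq_div_iff hgQ] at hm
    refine ⟨-m, ?_⟩
    have h3 : (m : ℚ) * ((p : ℚ) - X.y X.o) = -(((Orb X k).card : ℚ) * X.y k) := hm
    have h4 : m * ((p : ℤ) - X.y X.o) = -(((Orb X k).card : ℤ) * X.y k) := by
      exact_mod_cast h3
    linear_combination h4

end Pool.Agent.Helper45.OS
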